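import Mathlib
import Pool.Agent.K3h24.SB.Ideals

/-!
# Random infinite sets of primes: the lemma of Borel and Cantelli over the shells of the radical
-/

set_option autoImplicit false

namespace Pool.Agent.K3h37.RS

open NumberField IsDedekindDomain MeasureTheory Filter
open Pool.Agent.TH876.Loc
open scoped ENNReal

variable {K : Type} [Field K] [NumberField K]

/-- the random set `P` of primes of `K` contains each finite set `T` of primes with probability at
most `A * ∏ v ∈ T, N(v) ^ (-θ)` -/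
def Thin {Ω : Type*} [MeasurableSpace Ω] (μ : Measure Ω) (P : Ω → Set (Pr K)) (A θ : ℝ) : Prop :=
  ∀ T : Finset (Pr K), μ {ω | (T : Set (Pr K)) ⊆ P ω} ≤ ENNReal.ofReal (A * nn T ^ (-θ))

theorem finite_iff_bdd {α : Type*} (S : Set α) (B : ℝ)
    (h : ∀ F : Finset α, (F : Set α) ⊆ S → (F.card : ℝ) ≤ B) : S.Finite :=
  (Pool.Agent.K3h24.SB.fin_of_bound S B h).1

/-- independent primes: `v` belongs to the random set with probability `N(v) ^ (-θ)` -/
theorem exists_indep (K : Type) [Field K] [NumberField K] (θ : ℝ) (hθ : 0 ≤ θ) :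
    ∃ (Ω : Type) (_ : MeasurableSpace Ω) (μ : Measure Ω) (P : Ω → Set (Pr K)),
      IsProbabilityMeasure μ ∧ ∀ T : Finset (Pr K),
        MeasurableSet {ω | (T : Set (Pr K)) ⊆ P ω} ∧
        μ {ω | (T : Set (Pr K)) ⊆ P ω} = ENNReal.ofReal (nn T ^ (-θ)) := by
  classical
  obtain ⟨p, hp⟩ : ∃ p : Pr K → ℝ, ∀ v, p v = (Pool.Agent.H691R3.Nv v) ^ (-θ) := ⟨_, fun v => rfl⟩
  have hN : ∀ v : Pr K, (1 : ℝ) ≤ Pool.Agent.H691R3.Nv v := fun v => by
    have := NumberField.HeightOneSpectrum.one_lt_absNorm v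
    unfold Pool.Agent.H691R3.Nv
    exact_mod_cast this.le
  have hp0 : ∀ v, 0 ≤ p v := fun v => by
    rw [hp]
    exact Real.rpow_nonneg (by linarith [hN v]) _
  have hp1 : ∀ v, p v ≤ 1 := fun v => by
    rw [hp]
    exact Real.rpow_le_one_of_one_le_of_nonpos (hN v) (by linarith)
  let ν : Pr K → Measure Bool := fun v =>
    ENNReal.ofReal (p v) • Measure.dirac true + ENNReal.ofReal (1 - p v) • Measure.dirac false
  have hν : ∀ v, IsProbabilityMeasure (ν v) := fun v => by
    refine ⟨?_⟩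
    show (ENNReal.ofReal (p v) • Measure.dirac true +
      ENNReal.ofReal (1 - p v) • Measure.dirac false : Measure Bool) Set.univ = 1
    rw [Measure.add_apply, Measure.smul_apply, Measure.smul_apply, measure_univ, measure_univ,
      smul_eq_mul, smul_eq_mul, mul_one, mul_one, ← ENNReal.ofReal_add (hp0 v)
      (by linarith [hp1 v])]
    rw [add_sub_cancel, ENNReal.ofReal_one]
  have hν1 : ∀ v, ν v {true} = ENNReal.ofReal (p v) := fun v => by
    show (ENNReal.ofReal (p v) • Measure.dirac true +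
      ENNReal.ofReal (1 - p v) • Measure.dirac false : Measure Bool) {true} = _
    rw [Measure.add_apply, Measure.smul_apply, Measure.smul_apply,
      Measure.dirac_apply' _ (measurableSet_singleton _),
      Measure.dirac_apply' _ (measurableSet_singleton _)]
    simp
  refine ⟨Pr K → Bool, inferInstance, Measure.infinitePi ν, fun ω => {v | ω v = true},
    inferInstance, fun T => ?_⟩
  have e : {ω : Pr K → Bool | (T : Set (Pr K)) ⊆ {v | ω v = true}} =
      Set.pi (T : Set (Pr K)) (fun _ => {true}) := by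
    ext ω
    simp only [Set.mem_ofPred_eq, Set.mem_pi, Set.mem_singleton_iff]
    exact Iff.rfl
  rw [e]
  refine ⟨MeasurableSet.pi T.countable_toSet fun _ _ => measurableSet_singleton _, ?_⟩
  rw [Measure.infinitePi_pi ν (fun _ _ => measurableSet_singleton _)]
  simp only [hν1]
  rw [← ENNReal.ofReal_prod_of_nonneg fun v _ => hp0 v]
  congr 1
  unfold nn
  rw [← Real.finsetProd_rpow _ _ fun v _ => by linarith [hN v]]
  exact Finset.prod_congr rfl fun v _ => hp v

/-- **Borel–Cantelli**: if at most `C * X ^ a` elements of `E` have `nn (s x) ≤ X`, with `a < θ`, then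
almost surely only finitely many of them have all primes of `s x` in the random set -/
theorem bc {Ω : Type*} [MeasurableSpace Ω] {μ : Measure Ω} {P : Ω → Set (Pr K)} {A θ : ℝ}
    (hP : Thin μ P A θ) {α : Type*} (s : α → Finset (Pr K)) (E : Set α) {C a : ℝ}
    (hθ : 0 ≤ θ) (ha : a < θ)
    (hcnt : ∀ X : ℝ, 1 ≤ X → ∀ F : Finset α, (∀ x ∈ F, x ∈ E ∧ nn (s x) ≤ X) →
      (F.card : ℝ) ≤ C * X ^ a) :
    ∀ᵐ ω ∂μ, {x ∈ E | (s x : Set (Pr K)) ⊆ P ω}.Finite := by
  classical
  -- the constants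
  have hC : 0 ≤ C := by
    have h := hcnt 1 le_rfl ∅ (fun x hx => absurd hx (Finset.notMem_empty x))
    rw [Finset.card_empty, Nat.cast_zero, Real.one_rpow, mul_one] at h
    exact h
  have hr0 : (0 : ℝ) < 2 ^ (a - θ) := Real.rpow_pos_of_pos two_pos _
  have hr : (2 : ℝ) ^ (a - θ) < 1 := Real.rpow_lt_one_of_one_lt_of_neg one_lt_two (by linarith)
  -- the shells
  have hfin : ∀ k : ℕ, {x ∈ E | (2 : ℝ) ^ k ≤ nn (s x) ∧ nn (s x) < 2 ^ (k + 1)}.Finite := by
    intro k
    refine finite_iff_bdd _ (C * (2 ^ (k + 1) : ℝ) ^ a) fun F hF => ?_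
    exact hcnt _ (one_le_pow₀ one_le_two) F fun x hx => ⟨(hF hx).1, (hF hx).2.2.le⟩
  set G : ℕ → Finset α := fun k => (hfin k).toFinset with hG
  have hmem : ∀ k x, x ∈ G k ↔ x ∈ E ∧ (2 : ℝ) ^ k ≤ nn (s x) ∧ nn (s x) < 2 ^ (k + 1) := by
    intro k x
    rw [hG]
    simp only [Set.Finite.mem_toFinset]
    rfl
  set B : ℕ → Set Ω := fun k => ⋃ x ∈ G k, {ω | (s x : Set (Pr K)) ⊆ P ω} with hB
  -- the measure of a shell
  have hshell : ∀ k : ℕ, μ (B k) ≤ ENNReal.ofReal (|A| * C * 2 ^ a * (2 ^ (a - θ)) ^ k) := by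
    intro k
    rcases (G k).eq_empty_or_nonempty with he | hne
    · have : B k = ∅ := by
        rw [hB]
        simp only [he]
        simp
      rw [this, measure_empty]
      exact bot_le
    have h1 : μ (B k) ≤ ∑ x ∈ G k, μ {ω | (s x : Set (Pr K)) ⊆ P ω} :=
      measure_biUnion_finset_le _ _
    have h2 : ∀ x ∈ G k, μ {ω | (s x : Set (Pr K)) ⊆ P ω} ≤
        ENNReal.ofReal (|A| * ((2 : ℝ) ^ k) ^ (-θ)) := by
      intro x hx
      refine (hP (s x)).trans (ENNReal.ofReal_le_ofReal ?_)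
      have h3 := ((hmem k x).1 hx).2.1
      have h4 : nn (s x) ^ (-θ) ≤ ((2 : ℝ) ^ k) ^ (-θ) :=
        Real.rpow_le_rpow_of_nonpos (by positivity) h3 (by linarith)
      exact mul_le_mul (le_abs_self A) h4 (Real.rpow_nonneg (nn_pos _).le _) (abs_nonneg A)
    have h3 : ((G k).card : ℝ) ≤ C * (2 ^ (k + 1) : ℝ) ^ a :=
      hcnt _ (one_le_pow₀ one_le_two) (G k) fun x hx =>
        ⟨((hmem k x).1 hx).1, ((hmem k x).1 hx).2.2.le⟩
    have h4 : (0 : ℝ) ≤ |A| * ((2 : ℝ) ^ k) ^ (-θ) := by positivity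
    calc μ (B k) ≤ ∑ x ∈ G k, ENNReal.ofReal (|A| * ((2 : ℝ) ^ k) ^ (-θ)) :=
          h1.trans (Finset.sum_le_sum h2)
      _ = ENNReal.ofReal ((G k).card * (|A| * ((2 : ℝ) ^ k) ^ (-θ))) := by
          rw [Finset.sum_const, nsmul_eq_mul, ENNReal.ofReal_mul (Nat.cast_nonneg _),
            ENNReal.ofReal_natCast]
      _ ≤ ENNReal.ofReal (|A| * C * 2 ^ a * (2 ^ (a - θ)) ^ k) := by
          refine ENNReal.ofReal_le_ofReal ?_
          refine (mul_le_mul_of_nonneg_right h3 h4).trans (le_of_eq ?_)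
          have e1 : ((2 : ℝ) ^ (k + 1)) ^ a = 2 ^ a * ((2 : ℝ) ^ k) ^ a := by
            rw [pow_succ, Real.mul_rpow (by positivity) (by norm_num), mul_comm]
          have e2 : ((2 : ℝ) ^ (a - θ)) ^ k = ((2 : ℝ) ^ k) ^ a * ((2 : ℝ) ^ k) ^ (-θ) := by
            rw [← Real.rpow_add (by positivity), ← Real.rpow_natCast (2 ^ (a - θ)) k,
              ← Real.rpow_mul (by norm_num), ← Real.rpow_natCast 2 k,
              ← Real.rpow_mul (by norm_num)]
            congr 1
            ring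
          rw [e1, e2]
          ring
  have hsum : ∑' k, μ (B k) ≠ ∞ := by
    refine ne_top_of_le_ne_top ?_ (ENNReal.tsum_le_tsum hshell)
    rw [← ENNReal.ofReal_tsum_of_nonneg]
    · exact ENNReal.ofReal_ne_top
    · intro k
      have := abs_nonneg A
      positivity
    · exact (summable_geometric_of_lt_one hr0.le hr).mul_left _
  filter_upwards [ae_eventually_notMem hsum] with ω hω
  obtain ⟨N, hN⟩ := eventually_atTop.1 hω
  refine Set.Finite.subset (Set.Finite.biUnion (Finset.range N).finite_toSet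
    fun k _ => (G k).finite_toSet) fun x hx => ?_
  obtain ⟨k, hk1, hk2⟩ := exists_nat_pow_near (one_le_nn (s x)) (one_lt_two (α := ℝ))
  have hxk : x ∈ G k := (hmem k x).2 ⟨hx.1, hk1, hk2⟩
  refine Set.mem_iUnion₂.2 ⟨k, ?_, hxk⟩
  rw [Finset.mem_coe, Finset.mem_range]
  by_contra hc
  refine hN k (not_lt.1 hc) ?_
  exact Set.mem_iUnion₂.2 ⟨x, hxk, hx.2⟩

open Classical in
/-- a fixed finite set of primes may be added to the random set -/
theorem Thin.union {Ω : Type*} [MeasurableSpace Ω] {μ : Measure Ω} {P : Ω → Set (Pr K)} {A θ : ℝ}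
    (hP : Thin μ P A θ) (hθ : 0 ≤ θ) (S : Finset (Pr K)) :
    Thin μ (fun ω => P ω ∪ S) (|A| * nn S ^ θ) θ := by
  intro T
  have h1 : {ω | (T : Set (Pr K)) ⊆ P ω ∪ S} ⊆ {ω | ((T \ S : Finset (Pr K)) : Set (Pr K)) ⊆ P ω} := by
    intro ω hω v hv
    rw [Finset.mem_coe, Finset.mem_sdiff] at hv
    rcases hω (Finset.mem_coe.2 hv.1) with h | h
    · exact h
    · exact absurd (Finset.mem_coe.1 h) hv.2
  refine (measure_mono h1).trans ((hP _).trans (ENNReal.ofReal_le_ofReal ?_))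
  have h2 := Pool.Agent.K3h24.SB.nn_le_mul T S
  have hS := nn_pos S
  have hT := nn_pos T
  have hTS := nn_pos (T \ S)
  have h3 : nn (T \ S) ^ (-θ) ≤ nn S ^ θ * nn T ^ (-θ) := by
    have h4 : nn T / nn S ≤ nn (T \ S) := by
      rw [div_le_iff₀ hS]
      linarith
    have h5 := Real.rpow_le_rpow_of_nonpos (div_pos hT hS) h4 (show -θ ≤ 0 by linarith)
    refine h5.trans (le_of_eq ?_)
    rw [Real.div_rpow hT.le hS.le, Real.rpow_neg hS.le]
    field_simp
  have h6 : (0 : ℝ) ≤ nn (T \ S) ^ (-θ) := Real.rpow_nonneg hTS.le _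
  calc A * nn (T \ S) ^ (-θ) ≤ |A| * nn (T \ S) ^ (-θ) :=
        mul_le_mul_of_nonneg_right (le_abs_self A) h6
    _ ≤ |A| * (nn S ^ θ * nn T ^ (-θ)) := mul_le_mul_of_nonneg_left h3 (abs_nonneg A)
    _ = |A| * nn S ^ θ * nn T ^ (-θ) := by ring

theorem countable_pr (K : Type) [Field K] [NumberField K] : Countable (Pr K) := by
  have h1 : (⋃ n : ℕ, Pool.Agent.K3h24.SB.Box K n).Countable :=
    Set.countable_iUnion fun n => (Pool.Agent.K3h24.SB.box_fin (K := K) (n : ℝ)).countable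
  have h2 : Set.range (fun v : Pr K => v.asIdeal) ⊆ ⋃ n : ℕ, Pool.Agent.K3h24.SB.Box K n := by
    rintro _ ⟨v, rfl⟩
    exact Set.mem_iUnion.2 ⟨Ideal.absNorm v.asIdeal, v.ne_bot, le_rfl⟩
  have h3 := h1.mono h2
  have hinj : Function.Injective fun v : Pr K => v.asIdeal := fun v w h => HeightOneSpectrum.ext h
  rw [← Set.countable_univ_iff]
  have h4 : (Set.univ : Set (Pr K)) = (fun v : Pr K => v.asIdeal) ⁻¹'
      Set.range (fun v : Pr K => v.asIdeal) := by
    ext v
    simp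
  rw [h4]
  exact h3.preimage_of_injOn hinj.injOn

end Pool.Agent.K3h37.RS
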