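import Mathlib
import Pool.Agent.K3h37.RS.Core
import Pool.Agent.Y557.WK.Bridge
import Pool.Agent.TH876.Cell

/-!
# Heights and radicals of the units outside a random infinite set of primes
-/

set_option autoImplicit false

namespace Pool.Agent.K3h37.RS

open NumberField IsDedekindDomain MeasureTheory Height
open Pool.Agent.TH876.Loc

variable {K : Type} [Field K] [NumberField K]

/-- the count of all points -/
theorem all_count (K : Type) [Field K] [NumberField K] (ε : ℝ) (hε : 0 < ε) :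
    ∃ D : ℝ, ∀ X : ℝ, 1 ≤ X → ∀ F : Finset K, (∀ x ∈ F, x ∈ {x : K | Pt (-x)} ∧ nn (sp (-x)) ≤ X) →
      (F.card : ℝ) ≤ D * X ^ (2 / 3 + ε) := by
  classical
  obtain ⟨D, -, h⟩ := Pool.Agent.Y728.mainK K ε hε
  refine ⟨D, fun X hX F hF => ?_⟩
  have h1 := h X hX (F.image fun x => -x) fun y hy => by
    obtain ⟨x, hx, rfl⟩ := Finset.mem_image.1 hy
    exact hF x hx
  rwa [Finset.card_image_of_injective _ neg_injective] at h1

/-- the count of the exceptional points -/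
theorem exc_count (K : Type) [Field K] [NumberField K] {κ : ℝ} (hκ : 1 / 3 < κ) :
    ∃ ν : ℝ, 0 < ν ∧ ∃ D : ℝ, ∀ X : ℝ, 1 ≤ X → ∀ F : Finset K,
      (∀ x ∈ F, x ∈ {x : K | Pt (-x) ∧ κ * Real.log (nn (sp (-x))) ≤ hgt (-x)} ∧
        nn (sp (-x)) ≤ X) → (F.card : ℝ) ≤ D * X ^ (2 / 3 - ν) := by
  classical
  obtain ⟨ν, hν, D, -, h⟩ := Pool.Agent.Y557.WK.cnt_const K 0 hκ
  refine ⟨ν, hν, D, fun X hX F hF => ?_⟩
  have h1 := h X hX (F.image fun x => -x) fun y hy => by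
    obtain ⟨x, hx, rfl⟩ := Finset.mem_image.1 hy
    exact ⟨(hF x hx).1.1, (hF x hx).2, by
      rw [add_zero]
      exact (hF x hx).1.2⟩
  rwa [Finset.card_image_of_injective _ neg_injective] at h1

/-- the points whose primes are in `P` -/
def Un (P : Set (Pr K)) : Set K := {x | Pt (-x) ∧ (sp (-x) : Set (Pr K)) ⊆ P}

/-- **heights of the units outside a random set of primes** -/
theorem ae_height (K : Type) [Field K] [NumberField K] {κ : ℝ} (hκ : 1 / 3 < κ) :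
    ∃ θ₀ : ℝ, 0 ≤ θ₀ ∧ θ₀ < 2 / 3 ∧ ∀ θ : ℝ, θ₀ < θ →
      ∀ (Ω : Type) [MeasurableSpace Ω] (μ : Measure Ω) (P : Ω → Set (Pr K)) (A : ℝ),
        Thin μ P A θ → ∀ᵐ ω ∂μ, ∀ S : Finset (Pr K), ∃ C : ℝ, 0 ≤ C ∧ ∀ x ∈ Un (P ω ∪ S),
          logHeight₁ x ≤ κ * Real.log (nn (sp (-x))) + C := by
  have hcp : Countable (Pr K) := countable_pr K
  obtain ⟨ν, hν, D, hD⟩ := exc_count K hκ
  refine ⟨max (2 / 3 - ν) 0, le_max_right _ _, max_lt (by linarith) (by norm_num), ?_⟩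
  intro θ hθ Ω _ μ P A hP
  have hθ0 : 0 ≤ θ := (le_max_right _ _).trans hθ.le
  rw [ae_all_iff]
  intro S
  have h1 := bc (hP.union hθ0 S) (fun x : K => sp (-x))
    {x : K | Pt (-x) ∧ κ * Real.log (nn (sp (-x))) ≤ hgt (-x)} hθ0
    (lt_of_le_of_lt (le_max_left _ _) hθ) hD
  filter_upwards [h1] with ω hω
  obtain ⟨M, hM⟩ := (hω.image (fun x : K => logHeight₁ x)).bddAbove
  refine ⟨|M|, abs_nonneg M, fun x hx => ?_⟩
  have h0 : 0 ≤ Real.log (nn (sp (-x))) := Real.log_nonneg (one_le_nn _)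
  have h0' : 0 ≤ κ * Real.log (nn (sp (-x))) := mul_nonneg (by linarith) h0
  by_cases hc : κ * Real.log (nn (sp (-x))) ≤ hgt (-x)
  · have h2 : logHeight₁ x ≤ M := hM ⟨x, ⟨⟨hx.1, hc⟩, hx.2⟩, rfl⟩
    have := le_abs_self M
    linarith
  · have h2 := logHeight_le hx.1
    have h3 : logHeight₁ (-x) = logHeight₁ x := by
      simp
    rw [h3] at h2
    have := abs_nonneg M
    linarith [not_le.1 hc]

/-- **finitely many units outside a thinner random set of primes** -/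
theorem ae_finite (K : Type) [Field K] [NumberField K] {θ : ℝ} (hθ : 2 / 3 < θ)
    (Ω : Type) [MeasurableSpace Ω] (μ : Measure Ω) (P : Ω → Set (Pr K)) (A : ℝ)
    (hP : Thin μ P A θ) : ∀ᵐ ω ∂μ, ∀ S : Finset (Pr K), (Un (P ω ∪ S)).Finite := by
  have hcp : Countable (Pr K) := countable_pr K
  have hθ0 : 0 ≤ θ := by linarith
  rw [ae_all_iff]
  intro S
  obtain ⟨D, hD⟩ := all_count K ((θ - 2 / 3) / 2) (by linarith)
  have h1 := bc (hP.union hθ0 S) (fun x : K => sp (-x))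
    {x : K | Pt (-x)} hθ0 (show 2 / 3 + (θ - 2 / 3) / 2 < θ by linarith) hD
  filter_upwards [h1] with ω hω
  exact hω.subset fun x hx => hx

/-- monotone in the constant: `κ log nn` against the sum of a part -/
theorem mem_un {P : Set (Pr K)} {x : K} (h0 : x ≠ 0) (h1 : x ≠ 1)
    (h : ∀ v : Pr K, v ∉ P → v.valuation K x = 1 ∧ v.valuation K (1 - x) = 1) : x ∈ Un P := by
  have hp := Pool.Agent.K3h24.SB.pt_neg h0 h1
  refine ⟨hp, fun v hv => ?_⟩
  rw [Finset.mem_coe, Pool.Agent.K3h24.SB.mem_rad hp] at hv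
  by_contra hc
  exact hv (h v hc)

end Pool.Agent.K3h37.RS
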