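import Mathlib
import Pool.Agent.K3h37.RS.Ht
import Pool.Agent.K3h2.HA.Glo
import Pool.Agent.K3h24.SB.Main

/-!
# The cross ratios of the roots of hyperelliptic curves with few bad primes
-/

set_option autoImplicit false

namespace Pool.Agent.K3h37.RS

open NumberField IsDedekindDomain MeasureTheory Height
open Pool.Agent.H691R3 (fv Nv)
open Pool.Agent.TH876.Loc
open Pool.Agent.W318 (minExp discNorm badNorm)
open Pool.Agent.TH905.HS (pol)
open Pool.Agent.K3h2.HA (ratio ratio_ne_zero ratio_ne_one good_ratio sum_cond_le)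
open Pool.Agent.K3h24.SB (T2 mem_T2)

variable {K : Type} [Field K] [NumberField K]

/-- the cross ratios are units outside the bad primes of the twists -/
theorem ratio_mem {g m : ℕ} (hg : 2 ≤ g) (hm : m = 2 * g + 1) {e : Fin m → K}
    (he : Function.Injective e) {P : Set (Pr K)}
    (hP : ∀ v : Pr K, v ∉ P → ∃ d : K, d ≠ 0 ∧ minExp g (pol d e) v = 0)
    {i j k : Fin m} (hij : i ≠ j) (hik : i ≠ k) (hjk : j ≠ k) :
    ratio e i j k ∈ Un (P ∪ (T2 K : Set (Pr K))) := by
  refine mem_un (ratio_ne_zero he hij hik) (ratio_ne_one he hik hjk) fun v hv => ?_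
  rw [Set.mem_union, not_or] at hv
  obtain ⟨hv1, hv2⟩ := hv
  rw [Finset.mem_coe, mem_T2, not_not] at hv2
  obtain ⟨d, hd, h0⟩ := hP v hv1
  obtain ⟨h1, h2⟩ := good_ratio hg hm hd he v ((Pool.Agent.Y729.FW.fv_eq_one_iff v _).1 hv2) h0
    hij hik hjk
  exact ⟨(Pool.Agent.Y729.FW.fv_eq_one_iff v _).1 h1, (Pool.Agent.Y729.FW.fv_eq_one_iff v _).1 h2⟩

/-- the radical of a cross ratio and the conductor -/
theorem log_nn_ratio {g m : ℕ} (hg : 2 ≤ g) (hm : m = 2 * g + 1) {d : K} (hd : d ≠ 0)
    {e : Fin m → K} (he : Function.Injective e)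
    {i j k : Fin m} (hij : i ≠ j) (hik : i ≠ k) (hjk : j ≠ k) :
    Real.log (nn (sp (-ratio e i j k))) ≤ Real.log (badNorm g (pol d e)) +
      ∑ v ∈ (Pool.Agent.TH905.HS.finite_two K).toFinset, Real.log (Nv v) := by
  classical
  have h0 := ratio_ne_zero he hij hik
  have h1 := ratio_ne_one he hik hjk
  have hmk : Function.Injective (fun v : Pr K => FinitePlace.mk v) := by
    intro v w hvw
    have := congrArg FinitePlace.maximalIdeal hvw
    simpa [FinitePlace.maximalIdeal_mk] using this
  have h2 := sum_cond_le hg hm hd he hij hik hjk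
    ((sp (-ratio e i j k)).image fun v => FinitePlace.mk v) (by
      intro v hv
      obtain ⟨w, hw, rfl⟩ := Finset.mem_image.1 hv
      rw [Pool.Agent.TH402.AK.Weak.mem_sp_neg h0 h1] at hw
      by_contra hc
      rw [not_or, not_not, not_not] at hc
      refine hw ⟨hc.1, ?_⟩
      have e1 : FinitePlace.mk w (ratio e i j k - 1) = FinitePlace.mk w (1 - ratio e i j k) :=
        (FinitePlace.mk w).1.map_sub _ _
      show FinitePlace.mk w (ratio e i j k - 1) = 1
      rw [e1]
      exact hc.2)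
  refine le_trans (le_of_eq ?_) h2
  rw [Finset.sum_image fun a _ b _ h => hmk h]
  unfold nn
  rw [Real.log_prod]
  · refine Finset.sum_congr rfl fun v _ => ?_
    rw [FinitePlace.maximalIdeal_mk]
    rfl
  · intro v _
    have := Pool.Agent.H691R3.two_le_Nv v
    exact (lt_of_lt_of_le zero_lt_two this).ne'

end Pool.Agent.K3h37.RS
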