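import Mathlib
import Pool.Agent.K3h37.RS.Ht
import Pool.Agent.K3h24.SB.RatP

/-!
# Rational modular invariants of level two: heights; random sets of rational primes
-/

set_option autoImplicit false

namespace Pool.Agent.K3h37.RS

open NumberField IsDedekindDomain MeasureTheory Height
open Pool.Agent.TH876.Loc
open Pool.Agent.K3h24.SB (qq qq_prime qq_inj exists_qq mem_p T2 s2)

/-- the height of the modular invariant of a Legendre curve -/
theorem height_j {l j : ℚ} (hl : l ≠ 0) (hl1 : l ≠ 1)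
    (hj : j * (l ^ 2 * (1 - l) ^ 2) = 256 * (l ^ 2 - l + 1) ^ 3) :
    logHeight₁ j ≤ 6 * logHeight₁ l + Real.log 6912 := by
  obtain ⟨a, ha⟩ : ∃ a : ℤ, a = l.num := ⟨_, rfl⟩
  obtain ⟨b, hb⟩ : ∃ b : ℤ, b = (l.den : ℤ) := ⟨_, rfl⟩
  have hb0 : b ≠ 0 := by rw [hb]; exact_mod_cast l.den_ne_zero
  have hbQ : (b : ℚ) ≠ 0 := by exact_mod_cast hb0
  have hla : l = (a : ℚ) / b := by
    rw [ha, hb]
    exact_mod_cast (Rat.num_div_den l).symm
  have ha0 : a ≠ 0 := by rw [ha]; exact Rat.num_ne_zero.2 hl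
  have haQ : (a : ℚ) ≠ 0 := by exact_mod_cast ha0
  have hab : b - a ≠ 0 := by
    intro h
    apply hl1
    have : (a : ℚ) = b := by
      have h2 : a = b := by linarith
      rw [h2]
    rw [hla, this, div_self hbQ]
  have habQ : ((b : ℚ) - a) ≠ 0 := by exact_mod_cast hab
  obtain ⟨p, hp⟩ : ∃ p : ℤ, p = 256 * (a ^ 2 - a * b + b ^ 2) ^ 3 := ⟨_, rfl⟩
  obtain ⟨q, hq⟩ : ∃ q : ℤ, q = a ^ 2 * b ^ 2 * (b - a) ^ 2 := ⟨_, rfl⟩
  have hq0 : q ≠ 0 := by
    rw [hq]
    exact mul_ne_zero (mul_ne_zero (pow_ne_zero _ ha0) (pow_ne_zero _ hb0)) (pow_ne_zero _ hab)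
  have hqQ : (q : ℚ) ≠ 0 := by exact_mod_cast hq0
  have hjpq : j = (p : ℚ) / q := by
    rw [eq_div_iff hqQ, hp, hq]
    push_cast
    rw [hla] at hj
    field_simp at hj
    linear_combination hj
  -- the sizes
  obtain ⟨H, hH⟩ : ∃ H : ℤ, H = max |a| |b| := ⟨_, rfl⟩
  have haH : |a| ≤ H := hH ▸ le_max_left _ _
  have hbH : |b| ≤ H := hH ▸ le_max_right _ _
  have hH1 : 1 ≤ H := (Int.one_le_abs hb0).trans hbH
  have h1 : |a ^ 2 - a * b + b ^ 2| ≤ 3 * H ^ 2 := by
    have e1 : |a ^ 2| ≤ H ^ 2 := by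
      rw [abs_pow]
      exact pow_le_pow_left₀ (abs_nonneg _) haH 2
    have e2 : |b ^ 2| ≤ H ^ 2 := by
      rw [abs_pow]
      exact pow_le_pow_left₀ (abs_nonneg _) hbH 2
    have e3 : |a * b| ≤ H ^ 2 := by
      rw [abs_mul, pow_two]
      exact mul_le_mul haH hbH (abs_nonneg _) (by linarith)
    have e4 := abs_add_le (a ^ 2 - a * b) (b ^ 2)
    have e5 := abs_sub (a ^ 2) (a * b)
    linarith
  have h2 : |p| ≤ 6912 * H ^ 6 := by
    rw [hp, abs_mul, abs_pow]
    have e1 := pow_le_pow_left₀ (abs_nonneg _) h1 3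
    have e2 : |(256 : ℤ)| = 256 := by norm_num
    rw [e2]
    nlinarith
  have h3 : |q| ≤ 6912 * H ^ 6 := by
    rw [hq, abs_mul, abs_mul, abs_pow, abs_pow, abs_pow]
    have e1 : |b - a| ≤ 2 * H := by
      have := abs_sub b a
      linarith
    have f1 := pow_le_pow_left₀ (abs_nonneg _) haH 2
    have f2 := pow_le_pow_left₀ (abs_nonneg _) hbH 2
    have f3 := pow_le_pow_left₀ (abs_nonneg _) e1 2
    calc |a| ^ 2 * |b| ^ 2 * |b - a| ^ 2 ≤ H ^ 2 * H ^ 2 * (2 * H) ^ 2 :=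
          mul_le_mul (mul_le_mul f1 f2 (by positivity) (by positivity)) f3 (by positivity)
            (by positivity)
      _ = 4 * H ^ 6 := by ring
      _ ≤ 6912 * H ^ 6 := mul_le_mul_of_nonneg_right (by norm_num) (by positivity)
  have hHn : (H.natAbs : ℤ) = H := Int.natAbs_of_nonneg (by linarith)
  have hnum : j.num.natAbs ≤ 6912 * H.natAbs ^ 6 := by
    rcases eq_or_ne p 0 with h0 | h0
    · rw [hjpq, h0]
      simp
    · have e1 : j.num ∣ p := by
        rw [hjpq, ← Rat.divInt_eq_div]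
        exact Rat.num_dvd p hq0
      have e2 : j.num.natAbs ≤ p.natAbs :=
        Nat.le_of_dvd (Int.natAbs_pos.2 h0) (Int.natAbs_dvd_natAbs.2 e1)
      refine e2.trans ?_
      have e3 : (p.natAbs : ℤ) ≤ 6912 * (H.natAbs : ℤ) ^ 6 := by
        rw [hHn, Int.natCast_natAbs]
        exact h2
      exact_mod_cast e3
  have hden : j.den ≤ 6912 * H.natAbs ^ 6 := by
    have e1 : ((j.den : ℕ) : ℤ) ∣ q := by
      rw [hjpq, ← Rat.divInt_eq_div]
      exact Rat.den_dvd p q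
    have e2 : j.den ≤ q.natAbs := by
      have := Int.natAbs_dvd_natAbs.2 e1
      rw [Int.natAbs_natCast] at this
      exact Nat.le_of_dvd (Int.natAbs_pos.2 hq0) this
    refine e2.trans ?_
    have e3 : (q.natAbs : ℤ) ≤ 6912 * (H.natAbs : ℤ) ^ 6 := by
      rw [hHn, Int.natCast_natAbs]
      exact h3
    exact_mod_cast e3
  have hHl : H.natAbs = max l.num.natAbs l.den := by
    rw [hH, ha, hb]
    zify
    simp
  rw [Rat.logHeight₁_eq_log_max, Rat.logHeight₁_eq_log_max, ← hHl]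
  have hHp : (0 : ℝ) < (H.natAbs : ℝ) := by
    have : 0 < H.natAbs := Int.natAbs_pos.2 (by linarith)
    exact_mod_cast this
  have h4 : ((max j.num.natAbs j.den : ℕ) : ℝ) ≤ 6912 * (H.natAbs : ℝ) ^ 6 := by
    exact_mod_cast max_le hnum hden
  have h5 : (0 : ℝ) < ((max j.num.natAbs j.den : ℕ) : ℝ) := by
    have : 0 < max j.num.natAbs j.den := lt_of_lt_of_le j.den_pos (le_max_right _ _)
    exact_mod_cast this
  refine (Real.log_le_log h5 h4).trans (le_of_eq ?_)
  rw [Real.log_mul (by norm_num) (by positivity), Real.log_pow]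
  push_cast
  ring

/-- the random set `P` of primes contains each finite set `T` of primes with probability at most
`A * ∏ p ∈ T, p ^ (-θ)` -/
def ThinNat {Ω : Type*} [MeasurableSpace Ω] (μ : Measure Ω) (P : Ω → Set ℕ) (A θ : ℝ) : Prop :=
  ∀ T : Finset ℕ, (∀ p ∈ T, p.Prime) → μ {ω | ∀ p ∈ T, p ∈ P ω} ≤
    ENNReal.ofReal (A * ∏ p ∈ T, (p : ℝ) ^ (-θ))

open Classical in
theorem nn_rat (T : Finset (Pr ℚ)) (θ : ℝ) : nn T ^ θ = ∏ p ∈ T.image qq, (p : ℝ) ^ θ := by
  rw [Finset.prod_image fun v _ w _ h => qq_inj h]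
  unfold nn
  rw [← Real.finsetProd_rpow _ _ fun v _ => ?_]
  · rfl
  · exact Nat.cast_nonneg _

theorem thin_of_nat {Ω : Type*} [MeasurableSpace Ω] {μ : Measure Ω} {P : Ω → Set ℕ} {A θ : ℝ}
    (h : ThinNat μ P A θ) : Thin μ (fun ω => {v : Pr ℚ | qq v ∈ P ω}) A θ := by
  classical
  intro T
  rw [nn_rat]
  refine le_trans (measure_mono ?_) (h (T.image qq) fun p hp => ?_)
  · intro ω hω p hp
    obtain ⟨v, hv, rfl⟩ := Finset.mem_image.1 hp
    exact hω (Finset.mem_coe.2 hv)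
  · obtain ⟨v, hv, rfl⟩ := Finset.mem_image.1 hp
    exact qq_prime v

/-- independent random sets -/
theorem exists_bern {ι : Type} (p : ι → ℝ) (hp0 : ∀ i, 0 ≤ p i) (hp1 : ∀ i, p i ≤ 1) :
    ∃ (Ω : Type) (_ : MeasurableSpace Ω) (μ : Measure Ω) (P : Ω → Set ι),
      IsProbabilityMeasure μ ∧ ∀ T : Finset ι,
        MeasurableSet {ω | ∀ i ∈ T, i ∈ P ω} ∧
        μ {ω | ∀ i ∈ T, i ∈ P ω} = ENNReal.ofReal (∏ i ∈ T, p i) := by
  classical
  let ν : ι → Measure Bool := fun v =>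
    ENNReal.ofReal (p v) • Measure.dirac true + ENNReal.ofReal (1 - p v) • Measure.dirac false
  have hν : ∀ v, IsProbabilityMeasure (ν v) := fun v => by
    refine ⟨?_⟩
    show (ENNReal.ofReal (p v) • Measure.dirac true +
      ENNReal.ofReal (1 - p v) • Measure.dirac false : Measure Bool) Set.univ = 1
    rw [Measure.add_apply, Measure.smul_apply, Measure.smul_apply, measure_univ, measure_univ,
      smul_eq_mul, smul_eq_mul, mul_one, mul_one, ← ENNReal.ofReal_add (hp0 v)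
      (by linarith [hp1 v])]
    rw [add_sub_cancel, ENNReal.ofReal_one]
  have hν1 : ∀ v, ν v {true} = ENNReal.ofReal (p v) := fun v => by
    show (ENNReal.ofReal (p v) • Measure.dirac true +
      ENNReal.ofReal (1 - p v) • Measure.dirac false : Measure Bool) {true} = _
    rw [Measure.add_apply, Measure.smul_apply, Measure.smul_apply,
      Measure.dirac_apply' _ (measurableSet_singleton _),
      Measure.dirac_apply' _ (measurableSet_singleton _)]
    simp
  refine ⟨ι → Bool, inferInstance, Measure.infinitePi ν, fun ω => {v | ω v = true},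
    inferInstance, fun T => ?_⟩
  have e : {ω : ι → Bool | ∀ i ∈ T, i ∈ {v | ω v = true}} =
      Set.pi (T : Set ι) (fun _ => {true}) := by
    ext ω
    simp only [Set.mem_ofPred_eq, Set.mem_pi, Set.mem_singleton_iff, Finset.mem_coe]
  rw [e]
  refine ⟨MeasurableSet.pi T.countable_toSet fun _ _ => measurableSet_singleton _, ?_⟩
  rw [Measure.infinitePi_pi ν (fun _ _ => measurableSet_singleton _)]
  simp only [hν1]
  rw [← ENNReal.ofReal_prod_of_nonneg fun v _ => hp0 v]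

open Classical in
/-- the parameter of a factor over `ℤ[1 / N]`, if the prime factors of `N` are in `Q` -/
theorem par_un {N : ℕ} {l : ℚ} {Q : Set ℕ} (hl : l ≠ 0) (hl1 : l ≠ 1)
    (hS : l ∈ Pool.Agent.K3h24.SB.Sol s2 (Ideal.span {(N : 𝓞 ℚ)}))
    (hQ : ∀ p : ℕ, p.Prime → p ∣ N → p ∈ Q) :
    l ∈ Un ({v : Pr ℚ | qq v ∈ Q} ∪ (T2 ℚ : Set (Pr ℚ))) := by
  refine ⟨Pool.Agent.K3h24.SB.pt_neg hl hl1, fun v hv => ?_⟩
  by_cases h2 : v ∈ T2 ℚ
  · exact Or.inr (Finset.mem_coe.2 h2)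
  · left
    have h3 : v ∈ s2 l := Finset.mem_sdiff.2 ⟨Finset.mem_coe.1 hv, h2⟩
    have h4 := hS.2 v h3
    rw [Ideal.dvd_span_singleton, mem_p] at h4
    exact hQ _ (qq_prime v) h4

open Classical in
/-- its radical -/
theorem par_rad {N : ℕ} (hN : N ≠ 0) {l : ℚ}
    (hS : l ∈ Pool.Agent.K3h24.SB.Sol s2 (Ideal.span {(N : 𝓞 ℚ)})) :
    Real.log (nn (sp (-l))) ≤
      Real.log (nn (T2 ℚ)) + Real.log (∏ p ∈ N.primeFactors, (p : ℝ)) := by
  have h1 := Pool.Agent.K3h24.SB.nn_le_mul (sp (-l)) (T2 ℚ)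
  have h2 : nn (s2 l) ≤ ∏ p ∈ N.primeFactors, (p : ℝ) := by
    have e1 : nn (s2 l) = ∏ p ∈ (s2 l).image qq, (p : ℝ) := by
      have := nn_rat (s2 l) 1
      simpa using this
    rw [e1]
    refine Finset.prod_le_prod_of_subset_of_one_le ?_ (fun _ _ => Nat.cast_nonneg _) ?_
    · intro p hp
      obtain ⟨v, hv, rfl⟩ := Finset.mem_image.1 hp
      have h4 := hS.2 v hv
      rw [Ideal.dvd_span_singleton, mem_p] at h4
      exact Nat.mem_primeFactors.2 ⟨qq_prime v, h4, hN⟩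
    · intro p hp _
      have := (Nat.prime_of_mem_primeFactors hp).one_lt
      exact_mod_cast this.le
  have h3 : nn (sp (-l)) ≤ nn (T2 ℚ) * ∏ p ∈ N.primeFactors, (p : ℝ) :=
    h1.trans (mul_le_mul_of_nonneg_left h2 (nn_pos _).le)
  have h4 : (0 : ℝ) < ∏ p ∈ N.primeFactors, (p : ℝ) := Finset.prod_pos fun p hp => by
    have := (Nat.prime_of_mem_primeFactors hp).pos
    exact_mod_cast this
  refine (Real.log_le_log (nn_pos _) h3).trans (le_of_eq ?_)
  exact Real.log_mul (nn_pos _).ne' h4.ne'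

end Pool.Agent.K3h37.RS
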